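import Pool.Agent.Helper20.HalfG1

/-!
MP_60473b_co: expected chromatic number of random subgraphs, halving the edge probability.

Comparison of the two expectations of the question in terms of the degeneracy of the graph and the
chromatic number of an induced subgraph. The inequality of the question follows for all graphs
whose degeneracy `D` is at least `log n` and which contain a set of at most `D ^ A` vertices that
induces a graph of chromatic number at least a constant part of `D`.
-/

namespace Pool.Agent.Results.MP_60473b_co.DegenerateGraphs

open Finset

/-- The chromatic number of a finite graph as a natural number. -/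
noncomputable def chi {V : Type} (G : SimpleGraph V) : ℕ := G.chromaticNumber.toNat

/-- The expected chromatic number of the random spanning subgraph of `G` that keeps each edge of
`G` independently with probability `p`: the sum over all sets `F` of edges of `G` of
`p ^ |F| (1 - p) ^ (e(G) - |F|)` times the chromatic number of the graph with edge set `F`. -/
noncomputable def expChi {V : Type} [Fintype V] [DecidableEq V] (G : SimpleGraph V)
    [DecidableRel G.Adj] (p : ℝ) : ℝ :=
  ∑ F ∈ G.edgeFinset.powerset, p ^ F.card * (1 - p) ^ (G.edgeFinset.card - F.card) *
    (chi (SimpleGraph.fromEdgeSet (F : Set (Sym2 V))) : ℝ)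

/-- `G` is `D`-degenerate: every nonempty set `S` of vertices contains a vertex with at most `D`
neighbours in `S`. -/
def Degenerate {V : Type} [Fintype V] [DecidableEq V] (G : SimpleGraph V) [DecidableRel G.Adj]
    (D : ℕ) : Prop :=
  ∀ S : Finset V, S.Nonempty → ∃ v ∈ S, (S.filter fun u => G.Adj v u).card ≤ D

/-- For every `p` in `(0,1)` there is `c > 0` such that for every finite graph `G` on `n`
vertices, every `D ≥ log n` such that `G` is `D`-degenerate and every set `W` of at least 3
vertices, halving the edge probability `p` keeps at least the part
`c (χ(G[W])/D) (log D / log |W|)` of the expected chromatic number of the random subgraph. -/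
theorem result : ∀ p : ℝ, 0 < p → p < 1 → ∃ c : ℝ, 0 < c ∧
    ∀ (V : Type) [Fintype V] [DecidableEq V] (G : SimpleGraph V) [DecidableRel G.Adj] (D : ℕ)
      (W : Finset V), 3 ≤ W.card → Real.log (Fintype.card V) ≤ D → Degenerate G D →
      c * ((chi (G.induce (W : Set V)) : ℝ) / D) * (Real.log D / Real.log W.card) * expChi G p ≤
        expChi G (p / 2) := by
  intro p hp0 hp1
  obtain ⟨c, hc, h⟩ := Pool.Agent.Helper20.HalfP.degenW hp0 hp1
  refine ⟨c, hc, ?_⟩
  intro V _ _ G _ D W hW hD hG
  have h1 := h V G D W hW hD hG
  have e1 : ∀ q : ℝ, Pool.Agent.Helper20.HalfP.EChi G q = expChi G q := fun q => rfl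
  have e2 : Pool.Agent.Helper20.HalfP.chi (G.induce (W : Set V)) = chi (G.induce (W : Set V)) :=
    rfl
  rw [e1, e1, e2] at h1
  exact h1

end Pool.Agent.Results.MP_60473b_co.DegenerateGraphs
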