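import Pool.Agent.Helper20.HalfD

/-!
MP_60473b_co: expected chromatic number of random subgraphs, halving the edge probability.

The inequality of the question for all graphs whose vertex set is partitioned into classes that
induce graphs of bounded chromatic number and among any `a + 1` of which two are completely joined.
Complete multipartite graphs are the case `a = m = 1`.
-/

namespace Pool.Agent.Results.MP_60473b_co.JoinedClasses

open Finset

/-- The chromatic number of a finite graph as a natural number. -/
noncomputable def chi {V : Type} (G : SimpleGraph V) : ℕ := G.chromaticNumber.toNat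

/-- The expected chromatic number of the random spanning subgraph of `G` that keeps each edge of
`G` independently with probability `p`: the sum over all sets `F` of edges of `G` of
`p ^ |F| (1 - p) ^ (e(G) - |F|)` times the chromatic number of the graph with edge set `F`. -/
noncomputable def expChi {V : Type} [Fintype V] [DecidableEq V] (G : SimpleGraph V)
    [DecidableRel G.Adj] (p : ℝ) : ℝ :=
  ∑ F ∈ G.edgeFinset.powerset, p ^ F.card * (1 - p) ^ (G.edgeFinset.card - F.card) *
    (chi (SimpleGraph.fromEdgeSet (F : Set (Sym2 V))) : ℝ)

/-- For every `p` in `(0,1)` there is `c > 0` such that halving the edge probability `p` changes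
the expected chromatic number of the random subgraph by a factor at most `a m / c`, for all finite
graphs `G` with a partition of the vertex set into classes `cls = j` which induce `m`-colourable
graphs and such that among any `a + 1` nonempty classes two are completely joined. -/
theorem result : ∀ p : ℝ, 0 < p → p < 1 → ∃ c : ℝ, 0 < c ∧
    ∀ (V : Type) [Fintype V] [DecidableEq V] (G : SimpleGraph V) [DecidableRel G.Adj]
      (cls : V → ℕ) (m a : ℕ), 0 < m → 0 < a →
      (∀ j, (G.induce {v | cls v = j}).Colorable m) →
      (∀ I : Finset ℕ, I.card = a + 1 → (∀ j ∈ I, ∃ v, cls v = j) →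
        ∃ i ∈ I, ∃ j ∈ I, i ≠ j ∧ ∀ u v, cls u = i → cls v = j → G.Adj u v) →
      c / (a * m) * expChi G p ≤ expChi G (p / 2) := by
  intro p hp0 hp1
  obtain ⟨c, hc, h⟩ := Pool.Agent.Helper20.HalfP.half hp0 hp1
  refine ⟨c / 4, by positivity, ?_⟩
  intro V _ _ G _ cls m a hm ha hcls hjoin
  have h1 := h V G cls (4 * a) m (by omega) hm hcls
    (Pool.Agent.Helper20.HalfP.dense_of_joined G cls ha hjoin)
  have e1 : ∀ q : ℝ, Pool.Agent.Helper20.HalfP.EChi G q = expChi G q := fun q => rfl
  rw [e1, e1] at h1
  have haR : (0 : ℝ) < a := by exact_mod_cast ha
  have hmR : (0 : ℝ) < m := by exact_mod_cast hm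
  have h2 : c / 4 / (a * m) = c / (((4 * a : ℕ) : ℝ) * m) := by
    push_cast
    field_simp
  rw [h2]
  exact h1

end Pool.Agent.Results.MP_60473b_co.JoinedClasses
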