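import Pool.Agent.Helper20.HalfE6

/-!
MP_60473b_co: expected chromatic number of random subgraphs, halving the edge probability.

For every graph on `n ≥ 3` vertices the two expectations of the question differ at most by a factor
of order `log n / log log n`.
-/

namespace Pool.Agent.Results.MP_60473b_co.LogOverLogLog

open Finset

/-- The chromatic number of a finite graph as a natural number. -/
noncomputable def chi {V : Type} (G : SimpleGraph V) : ℕ := G.chromaticNumber.toNat

/-- The expected chromatic number of the random spanning subgraph of `G` that keeps each edge of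
`G` independently with probability `p`: the sum over all sets `F` of edges of `G` of
`p ^ |F| (1 - p) ^ (e(G) - |F|)` times the chromatic number of the graph with edge set `F`. -/
noncomputable def expChi {V : Type} [Fintype V] [DecidableEq V] (G : SimpleGraph V)
    [DecidableRel G.Adj] (p : ℝ) : ℝ :=
  ∑ F ∈ G.edgeFinset.powerset, p ^ F.card * (1 - p) ^ (G.edgeFinset.card - F.card) *
    (chi (SimpleGraph.fromEdgeSet (F : Set (Sym2 V))) : ℝ)

/-- For every `p` in `(0,1)` there is `c > 0` such that for every finite graph `G` on `n ≥ 3`
vertices, halving the edge probability `p` keeps at least the part `c log log n / log n` of the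
expected chromatic number of the random subgraph. -/
theorem result : ∀ p : ℝ, 0 < p → p < 1 → ∃ c : ℝ, 0 < c ∧
    ∀ (V : Type) [Fintype V] [DecidableEq V] (G : SimpleGraph V) [DecidableRel G.Adj],
      3 ≤ Fintype.card V →
      c * (Real.log (Real.log (Fintype.card V)) / Real.log (Fintype.card V)) * expChi G p ≤
        expChi G (p / 2) := by
  intro p hp0 hp1
  obtain ⟨c, hc, h⟩ := Pool.Agent.Helper20.HalfP.general hp0 hp1
  refine ⟨c, hc, ?_⟩
  intro V _ _ G _ hV
  have h1 := h V G hV
  have e1 : ∀ q : ℝ, Pool.Agent.Helper20.HalfP.EChi G q = expChi G q := fun q => rfl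
  rw [e1, e1] at h1
  exact h1

end Pool.Agent.Results.MP_60473b_co.LogOverLogLog
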