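import Pool.Agent.Helper20.HalfH1

/-!
MP_60473b_co: expected chromatic number of random subgraphs, halving the edge probability.

Graphs which contain a blow-up of a graph `H` with all fibres of size at least a constant times
`log |H| + 1`: the random subgraph keeps a constant part of the fractional chromatic number of `H`.
-/

namespace Pool.Agent.Results.MP_60473b_co.RobustBlowUps

open Finset

/-- The chromatic number of a finite graph as a natural number. -/
noncomputable def chi {V : Type} (G : SimpleGraph V) : ℕ := G.chromaticNumber.toNat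

/-- The expected chromatic number of the random spanning subgraph of `G` that keeps each edge of
`G` independently with probability `p`: the sum over all sets `F` of edges of `G` of
`p ^ |F| (1 - p) ^ (e(G) - |F|)` times the chromatic number of the graph with edge set `F`. -/
noncomputable def expChi {V : Type} [Fintype V] [DecidableEq V] (G : SimpleGraph V)
    [DecidableRel G.Adj] (p : ℝ) : ℝ :=
  ∑ F ∈ G.edgeFinset.powerset, p ^ F.card * (1 - p) ^ (G.edgeFinset.card - F.card) *
    (chi (SimpleGraph.fromEdgeSet (F : Set (Sym2 V))) : ℝ)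

/-- For every `p` in `(0,1)` there is `K > 0` such that the following holds. Let `G` and `H` be
finite graphs and let a set `U` of vertices of `G` be partitioned into fibres `cls v = j`, one for
every vertex `j` of `H`, each with at least `K (log |H| + 1)` vertices, such that `G` contains all
edges between the fibres of adjacent vertices of `H`. Let `w` be nonnegative weights on the vertices of
`H` for which every independent set of `H` has total weight at most 1. Then halving the edge
probability `p` keeps at least the part `w(H) / (4 χ(G))` of the expected chromatic number. -/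
theorem result : ∀ p : ℝ, 0 < p → p < 1 → ∃ K : ℝ, 0 < K ∧
    ∀ (V J : Type) [Fintype V] [DecidableEq V] [Fintype J] [DecidableEq J] [Nonempty J]
      (G : SimpleGraph V) [DecidableRel G.Adj] (H : SimpleGraph J) (U : Finset V) (cls : V → J)
      (w : J → ℝ),
      (∀ j, 0 ≤ w j) →
      (∀ I : Finset J, (∀ i ∈ I, ∀ j ∈ I, ¬ H.Adj i j) → ∑ j ∈ I, w j ≤ 1) →
      (∀ u ∈ U, ∀ v ∈ U, H.Adj (cls u) (cls v) → G.Adj u v) →
      (∀ j, K * (Real.log (Fintype.card J) + 1) ≤ (U.filter fun v => cls v = j).card) →
      (∑ j, w j) / (4 * chi G) * expChi G p ≤ expChi G (p / 2) := by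
  intro p hp0 hp1
  have hq0 : 0 < p / 2 := by linarith
  have hq1 : p / 2 < 1 := by linarith
  obtain ⟨K, hK, hnum⟩ := Pool.Agent.Helper20.HalfP.blow_num hq0 hq1
  refine ⟨K, by exact_mod_cast hK, ?_⟩
  intro V J _ _ _ _ _ G _ H U cls w hw0 hw hG hsize
  have hJ : 0 < Fintype.card J := Fintype.card_pos
  obtain ⟨T, t, hT, ht, hTt, htK, hn⟩ := hnum (Fintype.card J) hJ
  have hs : ∀ j, t ≤ (U.filter fun v => cls v = j).card := by
    intro j
    have h1 := htK.trans (hsize j)
    exact_mod_cast h1
  have h1 : ∑ j, w j ≤ 4 * Pool.Agent.Helper20.HalfP.EChi G (p / 2) := by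
    have h2 := Pool.Agent.Helper20.HalfP.blow G H cls w hw0 hw U hG hq0 hq1 ht hTt hJ
      (fun j => by convert hs j) hn
    exact h2
  have e1 : ∀ q : ℝ, Pool.Agent.Helper20.HalfP.EChi G q = expChi G q := fun q => rfl
  have h3 : Pool.Agent.Helper20.HalfP.EChi G p ≤ chi G :=
    Pool.Agent.Helper20.HalfP.EChi_le G hp0 hp1 (Pool.Agent.Helper20.HalfP.chi_canCol G)
  rw [e1] at h1 h3
  have hσ : 0 ≤ ∑ j, w j := Finset.sum_nonneg fun j _ => hw0 j
  have hV : 0 < (chi G : ℝ) := by
    obtain ⟨v, _⟩ := Finset.card_pos.1 (lt_of_lt_of_le ht (hs (Classical.arbitrary J)))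
    obtain ⟨f, hf, _⟩ := Pool.Agent.Helper20.HalfP.chi_canCol G
    have h4 := hf v (Finset.mem_univ v)
    have h5 : 0 < chi G := lt_of_le_of_lt (Nat.zero_le _) h4
    exact_mod_cast h5
  calc (∑ j, w j) / (4 * chi G) * expChi G p
      ≤ (∑ j, w j) / (4 * chi G) * chi G :=
        mul_le_mul_of_nonneg_left h3 (by positivity)
    _ = (∑ j, w j) / 4 := by
        field_simp
    _ ≤ expChi G (p / 2) := by linarith

end Pool.Agent.Results.MP_60473b_co.RobustBlowUps
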